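import Pool.Agent.Run7.h225.HG.Iface6

/-!
# PAIRO: pairs of blocks, the second one orthogonal

The brackets `{A_0, A_1, A_c}` and `{A_0, A_b, A_0}` of the odd elements, and the comparison of the two blocks.
-/

set_option autoImplicit false
set_option linter.unusedSimpArgs false

namespace Run7.h803.PAIRO
open Matrix Pool.Agent.Run7.h225.HG

variable {n : ℕ} {N : Matrix (Fin n) (Fin n) ℂ} {v μ : Fin n → ℂ} {w ξ : ℕ → Fin n → ℂ}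

/-- odd matrices -/
def A (v μ : Fin n → ℂ) (w ξ : ℕ → Fin n → ℂ) (m : ℕ) : Matrix (Fin n) (Fin n) ℂ :=
  vecMulVec v (ξ m) + vecMulVec (w m) μ

/-- commutators -/
def br {R : Type*} [Ring R] (X Y : R) : R := X * Y - Y * X

lemma op_smul_vec (c : ℂ) (u : Fin n → ℂ) : (MulOpposite.op c) • u = c • u := by
  ext i
  simp only [Pi.smul_apply, MulOpposite.smul_eq_mul_unop, MulOpposite.unop_op, smul_eq_mul]
  ring

/-- the double commutator of odd matrices -/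
lemma br3 (hmv : μ ⬝ᵥ v = 1) {x e t a b c : Fin n → ℂ} (ha : μ ⬝ᵥ a = 0) (hb : μ ⬝ᵥ b = 0) (hc : μ ⬝ᵥ c = 0)
    (hx : x ⬝ᵥ v = 0) (he : e ⬝ᵥ v = 0) (ht : t ⬝ᵥ v = 0) :
    br (br (vecMulVec v x + vecMulVec a μ) (vecMulVec v e + vecMulVec b μ)) (vecMulVec v t + vecMulVec c μ) =
      vecMulVec v ((x ⬝ᵥ b - e ⬝ᵥ a) • t - (t ⬝ᵥ a) • e + (t ⬝ᵥ b) • x) +
      vecMulVec ((e ⬝ᵥ c) • a - (x ⬝ᵥ c) • b - (x ⬝ᵥ b - e ⬝ᵥ a) • c) μ := by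
  unfold br
  simp only [add_mul, mul_add, sub_mul, mul_sub, vecMulVec_mul_vecMulVec, vecMulVec_add, vecMulVec_sub, add_vecMulVec,
    sub_vecMulVec, vecMulVec_smul, smul_vecMulVec, smul_mul_assoc, mul_smul_comm, hmv, ha, hb, hc, hx, he, ht, zero_smul,
    smul_zero, one_smul, add_zero, zero_add, sub_zero, smul_dotProduct, smul_eq_mul, zero_mul, mul_zero, mul_one, one_mul,
    zero_dotProduct, vecMulVec_zero, sub_self, zero_sub]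
  module

lemma A_mulVec (h : OD N v μ w ξ) (m : ℕ) : A v μ w ξ m *ᵥ v = w m := by
  unfold A
  rw [add_mulVec, vecMulVec_mulVec, vecMulVec_mulVec, op_smul_vec, op_smul_vec, h.xv, h.mv, zero_smul, one_smul, zero_add]

lemma n0_eq (h : OD N v μ w ξ) : n0 N (vecMulVec v μ) = N - A v μ w ξ 0 := by
  have h1 := h.od
  unfold offd at h1
  unfold n0 A
  rw [← h1]
  noncomm_ring

lemma ad_A (h : OD N v μ w ξ) (m : ℕ) : br N (A v μ w ξ m) - br (A v μ w ξ 0) (A v μ w ξ m) = A v μ w ξ (m + 1) := by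
  have h1 : br N (A v μ w ξ m) - br (A v μ w ξ 0) (A v μ w ξ m) = br (n0 N (vecMulVec v μ)) (A v μ w ξ m) := by
    rw [n0_eq h]
    unfold br
    noncomm_ring
  rw [h1]
  unfold br A
  rw [mul_add, add_mul, mul_vecMulVec, mul_vecMulVec, vecMulVec_mul, vecMulVec_mul, h.nv, h.nm, h.nw, h.nx]
  simp only [vecMulVec_add, vecMulVec_sub, add_vecMulVec, sub_vecMulVec, vecMulVec_smul, smul_vecMulVec]
  abel

lemma sgn_even {m : ℕ} (hm : Even m) : (-1 : ℂ) ^ m = 1 := hm.neg_one_pow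

lemma sgn_odd {m : ℕ} (hm : Odd m) : (-1 : ℂ) ^ m = -1 := hm.neg_one_pow

/-- `{A_0, A_1, A_c}` in an orthogonal block -/
lemma I1 (h : OD N v μ w ξ) (ho : ∀ m, Odd m → hm N v μ m = 0) (c : ℕ) :
    br (br (A v μ w ξ 0) (A v μ w ξ 1)) (A v μ w ξ c) =
      -(hm N v μ (1 + c) • A v μ w ξ 0) - hm N v μ c • A v μ w ξ 1 := by
  unfold A
  rw [br3 h.mv (h.mw _) (h.mw _) (h.mw _) (h.xv _) (h.xv _) (h.xv _), h.h, h.h, h.h, h.h, h.h, h.h]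
  have h1 : hm N v μ 1 = 0 := ho 1 odd_one
  have e1 : hm N v μ (0 + 1) = 0 := h1
  rw [e1, zero_add, add_zero, add_comm c 1]
  rcases Nat.even_or_odd c with hc | hc
  · have h2 : hm N v μ (1 + c) = 0 := ho _ (Odd.add_even odd_one hc)
    rw [h2, sgn_even hc]
    simp only [pow_zero, pow_one, mul_zero, sub_zero, zero_smul, one_mul, neg_zero, zero_sub, add_zero, vecMulVec_neg,
      vecMulVec_smul, neg_vecMulVec, smul_vecMulVec, smul_add, zero_add, vecMulVec_sub, sub_vecMulVec]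
    abel
  · have h2 : hm N v μ c = 0 := ho _ hc
    rw [h2, sgn_odd hc]
    simp only [pow_zero, pow_one, mul_zero, sub_zero, zero_smul, one_mul, neg_zero, zero_sub, add_zero, vecMulVec_neg,
      vecMulVec_smul, neg_vecMulVec, smul_vecMulVec, smul_add, zero_add, vecMulVec_sub, sub_vecMulVec, neg_mul,
      neg_smul]
    abel

/-- `{A_0, A_b, A_0}` for odd `b` -/
lemma I2 (h : OD N v μ w ξ) {b : ℕ} (hb : Odd b) :
    br (br (A v μ w ξ 0) (A v μ w ξ b)) (A v μ w ξ 0) =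
      (3 * hm N v μ b) • (vecMulVec v (ξ 0) - vecMulVec (w 0) μ) - hm N v μ 0 • A v μ w ξ b := by
  unfold A
  rw [br3 h.mv (h.mw _) (h.mw _) (h.mw _) (h.xv _) (h.xv _) (h.xv _), h.h, h.h, h.h, sgn_odd hb]
  have e0 : b + 0 = b := add_zero b
  have e1 : 0 + b = b := zero_add b
  rw [e0, e1]
  simp only [pow_zero, one_mul, vecMulVec_neg, vecMulVec_add, add_vecMulVec,
    vecMulVec_smul, neg_vecMulVec, smul_vecMulVec, vecMulVec_sub, sub_vecMulVec, add_zero]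
  module

lemma indep2 (h : OD N v μ w ξ) {i j : ℕ} (hi : i < n - 1) (hj : j < n - 1) (hij : i ≠ j) {α β : ℂ}
    (he : α • w i + β • w j = 0) : α = 0 ∧ β = 0 := by
  have h1 := h.iw
  have h2 : Function.Injective ![(⟨i, hi⟩ : Fin (n - 1)), ⟨j, hj⟩] := by
    intro a b hab
    fin_cases a <;> fin_cases b <;> simp_all
  have h3 := h1.comp _ h2
  have h4 := Fintype.linearIndependent_iff.1 h3 ![α, β] (by
    rw [Fin.sum_univ_two]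
    simpa using he)
  exact ⟨by simpa using h4 0, by simpa using h4 1⟩

lemma w_ne (h : OD N v μ w ξ) : w 0 ≠ 0 := by
  have h2 := h.two
  have := h.iw.ne_zero ⟨0, by omega⟩
  simpa using this

lemma xi_ne (h : OD N v μ w ξ) : ξ 0 ≠ 0 := by
  have h2 := h.two
  have := h.ix.ne_zero ⟨0, by omega⟩
  simpa using this

lemma w_span (h : OD N v μ w ξ) (b : ℕ) : w b ∈ Submodule.span ℂ (Set.range fun i : Fin (n - 1) => w i) := by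
  have h2 := h.two
  let f : (Fin n → ℂ) →ₗ[ℂ] ℂ :=
    { toFun := fun x => μ ⬝ᵥ x
      map_add' := fun x y => dotProduct_add _ _ _
      map_smul' := fun c x => dotProduct_smul _ _ _ }
  have hf : LinearMap.range f = ⊤ := by
    rw [LinearMap.range_eq_top]
    intro c
    refine ⟨c • v, ?_⟩
    show μ ⬝ᵥ (c • v) = c
    rw [dotProduct_smul, h.mv, smul_eq_mul, mul_one]
  have h3 : Module.finrank ℂ (LinearMap.ker f) = n - 1 := by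
    have h4 := LinearMap.finrank_range_add_finrank_ker f
    rw [hf, finrank_top, Module.finrank_self, Module.finrank_fin_fun] at h4
    omega
  have h5 : Submodule.span ℂ (Set.range fun i : Fin (n - 1) => w i) ≤ LinearMap.ker f := by
    rw [Submodule.span_le]
    rintro _ ⟨i, rfl⟩
    exact h.mw i
  have h6 : Submodule.span ℂ (Set.range fun i : Fin (n - 1) => w i) = LinearMap.ker f := by
    refine Submodule.eq_of_le_of_finrank_eq h5 ?_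
    rw [h3, finrank_span_eq_card h.iw, Fintype.card_fin]
  rw [h6]
  exact h.mw b

/-- in a block of size three -/
lemma three_w (h : OD N v μ w ξ) (hn : n = 3) (ho : ∀ m, Odd m → hm N v μ m = 0) {b : ℕ} (hb : Odd b) :
    ∃ β : ℂ, w b = β • w 1 := by
  subst hn
  have h1 : ∀ m, ∃ α β : ℂ, w m = α • w 0 + β • w 1 := by
    intro m
    obtain ⟨c, hc⟩ := (Submodule.mem_span_range_iff_exists_fun ℂ).1 (w_span h m)
    refine ⟨c 0, c 1, ?_⟩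
    rw [← hc]
    exact Fin.sum_univ_two (fun i : Fin 2 => c i • w i)
  have hx : ∀ m, ξ 0 ⬝ᵥ w m = hm N v μ m := by
    intro m
    rw [h.h, pow_zero, one_mul, zero_add]
  have h0 : hm N v μ 0 ≠ 0 := by
    intro h0
    have h2 : ∀ m, ξ 0 ⬝ᵥ w m = 0 := by
      intro m
      obtain ⟨α, β, hm'⟩ := h1 m
      rw [hm', dotProduct_add, dotProduct_smul, dotProduct_smul, hx, hx, h0, ho 1 odd_one]
      simp
    have h3 : ∀ u : Fin 3 → ℂ, μ ⬝ᵥ u = 0 → ξ 0 ⬝ᵥ u = 0 := by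
      intro u hu
      refine Submodule.span_induction (p := fun u _ => ξ 0 ⬝ᵥ u = 0) ?_ ?_ ?_ ?_ (h.sw u hu)
      · rintro _ ⟨m, rfl⟩
        exact h2 m
      · exact dotProduct_zero _
      · intro x y _ _ hx hy
        rw [dotProduct_add, hx, hy, add_zero]
      · intro c x _ hx
        rw [dotProduct_smul, hx, smul_zero]
    apply xi_ne h
    have h4 : ∀ x : Fin 3 → ℂ, ξ 0 ⬝ᵥ x = 0 := by
      intro x
      have h5 := h3 (x - (μ ⬝ᵥ x) • v) (by rw [dotProduct_sub, dotProduct_smul, h.mv, smul_eq_mul, mul_one, sub_self])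
      rw [dotProduct_sub, dotProduct_smul, h.xv, smul_zero, sub_zero] at h5
      exact h5
    exact dotProduct_eq_zero _ h4
  obtain ⟨α, β, hm'⟩ := h1 b
  refine ⟨β, ?_⟩
  have h2 := hx b
  rw [hm', dotProduct_add, dotProduct_smul, dotProduct_smul, hx, hx, ho 1 odd_one, ho b hb, smul_zero, add_zero,
    smul_eq_mul] at h2
  rw [hm', (mul_eq_zero.1 h2).resolve_right h0, zero_smul, zero_add]

section pairs

variable {n₁ n₂ : ℕ} {N₁ : Matrix (Fin n₁) (Fin n₁) ℂ} {N₂ : Matrix (Fin n₂) (Fin n₂) ℂ} {v₁ μ₁ : Fin n₁ → ℂ}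
    {v₂ μ₂ : Fin n₂ → ℂ} {w₁ ξ₁ : ℕ → Fin n₁ → ℂ} {w₂ ξ₂ : ℕ → Fin n₂ → ℂ}
    {𝔤 : Submodule ℂ (Matrix (Fin n₁) (Fin n₁) ℂ × Matrix (Fin n₂) (Fin n₂) ℂ)}

lemma br_mem (hg : LP2 N₁ N₂ v₁ μ₁ v₂ μ₂ 𝔤) {X Y : Matrix (Fin n₁) (Fin n₁) ℂ × Matrix (Fin n₂) (Fin n₂) ℂ}
    (hX : X ∈ 𝔤) (hY : Y ∈ 𝔤) : ((br X.1 Y.1, br X.2 Y.2) : _ × _) ∈ 𝔤 := hg.brk X hX Y hY

lemma A_mem (h₁ : OD N₁ v₁ μ₁ w₁ ξ₁) (h₂ : OD N₂ v₂ μ₂ w₂ ξ₂) (hg : LP2 N₁ N₂ v₁ μ₁ v₂ μ₂ 𝔤) (m : ℕ) :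
    ((A v₁ μ₁ w₁ ξ₁ m, A v₂ μ₂ w₂ ξ₂ m) : _ × _) ∈ 𝔤 := by
  have h0 : ((A v₁ μ₁ w₁ ξ₁ 0, A v₂ μ₂ w₂ ξ₂ 0) : _ × _) ∈ 𝔤 := by
    have h1 := hg.od
    rw [h₁.od, h₂.od] at h1
    exact h1
  induction m with
  | zero => exact h0
  | succ m ih =>
    have h1 := hg.adN _ ih
    have h2 := hg.brk _ h0 _ ih
    have h3 := 𝔤.sub_mem h1 h2
    rw [← ad_A h₁, ← ad_A h₂]
    exact h3

theorem p_PAIRO (hODO : S_ODO) : S_PAIRO := by
  intro n₁ n₂ N₁ J₁ N₂ J₂ v₁ μ₁ v₂ μ₂ w₁ ξ₁ w₂ ξ₂ h₁ h₂ hO₂ 𝔤 hg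
  obtain ⟨ho₂, c₂, hc₂, -, hJw⟩ := hODO n₂ N₂ J₂ v₂ μ₂ w₂ ξ₂ h₂ hO₂
  have hA := A_mem h₁ h₂ hg
  have hn₂ := hO₂.three
  refine ⟨fun hO₁ => ?_, fun hm1 hne => ?_⟩
  · rintro ⟨c, hc⟩
    obtain ⟨ho₁, -⟩ := hODO n₁ N₁ J₁ v₁ μ₁ w₁ ξ₁ h₁ hO₁
    have h3 := br_mem hg (br_mem hg (hA 0) (hA 1)) (hA c)
    simp only at h3
    rw [I1 h₁ ho₁ c, I1 h₂ ho₂ c] at h3
    have h4 := 𝔤.add_mem (𝔤.add_mem h3 (𝔤.smul_mem (hm N₁ v₁ μ₁ (1 + c)) (hA 0))) (𝔤.smul_mem (hm N₁ v₁ μ₁ c) (hA 1))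
    refine ⟨_, h4, ?_, ?_⟩
    · show -(hm N₁ v₁ μ₁ (1 + c) • A v₁ μ₁ w₁ ξ₁ 0) - hm N₁ v₁ μ₁ c • A v₁ μ₁ w₁ ξ₁ 1 +
        hm N₁ v₁ μ₁ (1 + c) • A v₁ μ₁ w₁ ξ₁ 0 + hm N₁ v₁ μ₁ c • A v₁ μ₁ w₁ ξ₁ 1 = 0
      abel
    · intro h5
      have h6 : -(hm N₂ v₂ μ₂ (1 + c) • A v₂ μ₂ w₂ ξ₂ 0) - hm N₂ v₂ μ₂ c • A v₂ μ₂ w₂ ξ₂ 1 +
        hm N₁ v₁ μ₁ (1 + c) • A v₂ μ₂ w₂ ξ₂ 0 + hm N₁ v₁ μ₁ c • A v₂ μ₂ w₂ ξ₂ 1 = 0 := h5
      have h7 := congrArg (fun M => M *ᵥ v₂) h6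
      simp only [add_mulVec, sub_mulVec, neg_mulVec, smul_mulVec, A_mulVec h₂, zero_mulVec] at h7
      have h8 : (hm N₁ v₁ μ₁ (1 + c) - hm N₂ v₂ μ₂ (1 + c)) • w₂ 0 + (hm N₁ v₁ μ₁ c - hm N₂ v₂ μ₂ c) • w₂ 1 = 0 := by
        rw [← h7]; module
      have h9 := (indep2 h₂ (by omega) (by omega) (by norm_num) h8).2
      exact hc (sub_eq_zero.1 h9)
  · obtain ⟨b₀, hb₀, hh₀⟩ := hm1
    set δ := hm N₁ v₁ μ₁ 0 - hm N₂ v₂ μ₂ 0 with hδ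
    -- the elements `Z_b`
    have hZ : ∀ b, Odd b → (((3 * hm N₁ v₁ μ₁ b) • (vecMulVec v₁ (ξ₁ 0) - vecMulVec (w₁ 0) μ₁),
        δ • A v₂ μ₂ w₂ ξ₂ b) : _ × _) ∈ 𝔤 := by
      intro b hb
      have h3 := br_mem hg (br_mem hg (hA 0) (hA b)) (hA 0)
      simp only at h3
      rw [I2 h₁ hb, I2 h₂ hb, ho₂ b hb] at h3
      have h4 := 𝔤.add_mem h3 (𝔤.smul_mem (hm N₁ v₁ μ₁ 0) (hA b))
      convert h4 using 1
      refine Prod.ext ?_ ?_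
      · show _ = (3 * hm N₁ v₁ μ₁ b) • (vecMulVec v₁ (ξ₁ 0) - vecMulVec (w₁ 0) μ₁) -
          hm N₁ v₁ μ₁ 0 • A v₁ μ₁ w₁ ξ₁ b + hm N₁ v₁ μ₁ 0 • A v₁ μ₁ w₁ ξ₁ b
        rw [sub_add_cancel]
      · show δ • A v₂ μ₂ w₂ ξ₂ b = (3 * 0 : ℂ) • (vecMulVec v₂ (ξ₂ 0) - vecMulVec (w₂ 0) μ₂) -
          hm N₂ v₂ μ₂ 0 • A v₂ μ₂ w₂ ξ₂ b + hm N₁ v₁ μ₁ 0 • A v₂ μ₂ w₂ ξ₂ b
        rw [hδ]
        module
    have hst : (vecMulVec v₁ (ξ₁ 0) - vecMulVec (w₁ 0) μ₁) *ᵥ v₁ = -w₁ 0 := by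
      rw [sub_mulVec, vecMulVec_mulVec, vecMulVec_mulVec, op_smul_vec, op_smul_vec, h₁.xv, h₁.mv, zero_smul, one_smul,
        zero_sub]
    have h30 : (3 * hm N₁ v₁ μ₁ b₀) ≠ 0 := mul_ne_zero (by norm_num) hh₀
    by_cases hδ0 : δ = 0
    · refine ⟨_, hZ b₀ hb₀, Or.inr ⟨?_, ?_⟩⟩
      · intro h5
        have h6 : (3 * hm N₁ v₁ μ₁ b₀) • (vecMulVec v₁ (ξ₁ 0) - vecMulVec (w₁ 0) μ₁) = 0 := h5
        have h7 := congrArg (fun M => M *ᵥ v₁) h6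
        simp only [smul_mulVec, hst, zero_mulVec] at h7
        rcases smul_eq_zero.1 h7 with h8 | h8
        · exact h30 h8
        · exact w_ne h₁ (neg_eq_zero.1 h8)
      · show δ • A v₂ μ₂ w₂ ξ₂ b₀ = 0
        rw [hδ0, zero_smul]
    · by_cases h5 : n₂ = 3
      · -- a block of size three
        have hn₁ : 3 ≤ n₁ := by
          have := h₁.two
          by_contra hc
          exact hne ⟨by omega, h5⟩
        obtain ⟨β, hβ⟩ := three_w h₂ h5 ho₂ hb₀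
        have hξ : ξ₂ b₀ = β • ξ₂ 1 := by
          have e1 := hJw b₀
          rw [hβ, mulVec_smul, hJw 1] at e1
          have e2 : c₂ • ξ₂ b₀ = c₂ • (β • ξ₂ 1) := by
            rw [smul_neg] at e1
            rw [← neg_inj, ← e1, smul_comm]
          exact smul_right_injective _ hc₂ e2
        have hAb : A v₂ μ₂ w₂ ξ₂ b₀ = β • A v₂ μ₂ w₂ ξ₂ 1 := by
          unfold A
          rw [hβ, hξ, vecMulVec_smul, smul_vecMulVec, smul_add]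
        have h6 := 𝔤.sub_mem (hZ b₀ hb₀) (𝔤.smul_mem (δ * β) (hA 1))
        refine ⟨_, h6, Or.inr ⟨?_, ?_⟩⟩
        · intro h7
          have h8 : (3 * hm N₁ v₁ μ₁ b₀) • (vecMulVec v₁ (ξ₁ 0) - vecMulVec (w₁ 0) μ₁) -
            (δ * β) • A v₁ μ₁ w₁ ξ₁ 1 = 0 := h7
          have h9 := congrArg (fun M => M *ᵥ v₁) h8
          simp only [sub_mulVec, smul_mulVec, zero_mulVec, A_mulVec h₁] at h9
          rw [← sub_mulVec, hst] at h9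
          have h10 : (-(3 * hm N₁ v₁ μ₁ b₀)) • w₁ 0 + (-(δ * β)) • w₁ 1 = 0 := by
            rw [← h9]; module
          have h11 := (indep2 h₁ (by omega) (by omega) (by norm_num) h10).1
          exact h30 (neg_eq_zero.1 h11)
        · show δ • A v₂ μ₂ w₂ ξ₂ b₀ - (δ * β) • A v₂ μ₂ w₂ ξ₂ 1 = 0
          rw [hAb, smul_smul, sub_self]
      · have hn5 : 5 ≤ n₂ := by
          obtain ⟨k, hk⟩ := hO₂.odd
          omega
        by_contra hc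
        push Not at hc
        have h7 : ∀ b, Odd b → hm N₁ v₁ μ₁ b • w₂ b₀ - hm N₁ v₁ μ₁ b₀ • w₂ b = 0 := by
          intro b hb
          have h8 := 𝔤.sub_mem (𝔤.smul_mem (hm N₁ v₁ μ₁ b) (hZ b₀ hb₀)) (𝔤.smul_mem (hm N₁ v₁ μ₁ b₀) (hZ b hb))
          have h9 := (hc _ h8).1 (by
            show hm N₁ v₁ μ₁ b • ((3 * hm N₁ v₁ μ₁ b₀) • (vecMulVec v₁ (ξ₁ 0) - vecMulVec (w₁ 0) μ₁)) -
              hm N₁ v₁ μ₁ b₀ • ((3 * hm N₁ v₁ μ₁ b) • (vecMulVec v₁ (ξ₁ 0) - vecMulVec (w₁ 0) μ₁)) = 0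
            module)
          have h10 : hm N₁ v₁ μ₁ b • (δ • A v₂ μ₂ w₂ ξ₂ b₀) - hm N₁ v₁ μ₁ b₀ • (δ • A v₂ μ₂ w₂ ξ₂ b) = 0 := h9
          have h11 := congrArg (fun M => M *ᵥ v₂) h10
          simp only [sub_mulVec, smul_mulVec, zero_mulVec, A_mulVec h₂] at h11
          have h12 : δ • (hm N₁ v₁ μ₁ b • w₂ b₀ - hm N₁ v₁ μ₁ b₀ • w₂ b) = 0 := by
            rw [← h11]; module
          exact (smul_eq_zero.1 h12).resolve_left hδ0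
        have e1 := h7 1 odd_one
        have e3 := h7 3 (by decide)
        have h8 : (hm N₁ v₁ μ₁ b₀ * hm N₁ v₁ μ₁ 3) • w₂ 1 + (-(hm N₁ v₁ μ₁ b₀ * hm N₁ v₁ μ₁ 1)) • w₂ 3 = 0 := by
          have : (hm N₁ v₁ μ₁ b₀ * hm N₁ v₁ μ₁ 3) • w₂ 1 + (-(hm N₁ v₁ μ₁ b₀ * hm N₁ v₁ μ₁ 1)) • w₂ 3 =
            hm N₁ v₁ μ₁ 1 • (hm N₁ v₁ μ₁ 3 • w₂ b₀ - hm N₁ v₁ μ₁ b₀ • w₂ 3) -
            hm N₁ v₁ μ₁ 3 • (hm N₁ v₁ μ₁ 1 • w₂ b₀ - hm N₁ v₁ μ₁ b₀ • w₂ 1) := by module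
          rw [this, e1, e3, smul_zero, smul_zero, sub_zero]
        obtain ⟨h9, h10⟩ := indep2 h₂ (by omega) (by omega) (by norm_num) h8
        have h11 : hm N₁ v₁ μ₁ 1 = 0 := by
          rcases mul_eq_zero.1 (neg_eq_zero.1 h10) with h | h
          · exact absurd h hh₀
          · exact h
        rw [h11, zero_smul, zero_sub, neg_eq_zero, smul_eq_zero] at e1
        rcases e1 with h12 | h12
        · exact hh₀ h12
        · have h13 := h₂.iw.ne_zero ⟨1, by omega⟩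
          exact h13 h12

end pairs

end Run7.h803.PAIRO
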