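import Pool.Agent.Run7.h225.HG.Iface6
import Pool.Agent.Run7.h893.HO.Grp

/-!
# SOG: the special orthogonal group is generated by exponentials of elements with cube zero

`G J` is the monoid generated by the exponentials; it is normalised by the reflections. For `(a, a) = (b, b) = (a, b) = 1`
the exponential of `b ⊗ J e - e ⊗ J b`, `e = b - a`, maps `b` to `a`, so `r_a r_b ∈ G J`; in general one puts a vector
`a + c e` with an isotropic `e ⊥ a` between `a` and `b`. The theorem of Cartan and Dieudonne is `gen_rf` in `h893/HO/Grp`.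
-/

set_option autoImplicit false

namespace Run7.h803.SOG
open Matrix Pool.Agent.Y119.HY Run7.h893.HO
open Pool.Agent.Run7.h225.HG (som mem_som S_SOG)

variable {n : ℕ} {J : Matrix (Fin n) (Fin n) ℂ}

/-- the exponentials of the elements with cube zero -/
noncomputable def ex (X : Matrix (Fin n) (Fin n) ℂ) (t : ℂ) : Matrix (Fin n) (Fin n) ℂ :=
  1 + t • X + (t ^ 2 / 2) • (X * X)

lemma ex_add {X : Matrix (Fin n) (Fin n) ℂ} (hX : X * X * X = 0) (s t : ℂ) : ex X s * ex X t = ex X (s + t) := by
  have h4 : X * (X * X) = 0 := by rw [← Matrix.mul_assoc, hX]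
  unfold ex
  simp only [add_mul, mul_add, one_mul, mul_one, smul_mul_assoc, mul_smul_comm, Matrix.mul_assoc, h4, mul_zero,
    smul_zero, add_zero]
  module

lemma ex_isom {X : Matrix (Fin n) (Fin n) ℂ} (hX : X * X * X = 0) (hJ : X.transpose * J + J * X = 0) (t : ℂ) :
    (ex X t).transpose * J * ex X t = J := by
  have h1 : X.transpose * J = -(J * X) := eq_neg_of_add_eq_zero_left hJ
  have h2 : (ex X t).transpose * J = J * ex X (-t) := by
    unfold ex
    rw [transpose_add, transpose_add, transpose_one, transpose_smul, transpose_smul, transpose_mul, add_mul, add_mul,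
      smul_mul_assoc, smul_mul_assoc, Matrix.mul_assoc, h1, mul_neg, ← Matrix.mul_assoc, h1, mul_add, mul_add,
      mul_smul_comm, mul_smul_comm, one_mul, mul_one, neg_mul, neg_neg, Matrix.mul_assoc]
    module
  rw [h2, Matrix.mul_assoc, ex_add hX, neg_add_cancel]
  unfold ex
  simp

lemma ex_zero (X : Matrix (Fin n) (Fin n) ℂ) : ex X 0 = 1 := by
  unfold ex
  simp

lemma inv_of_isom (hdet : J.det ≠ 0) {g : Matrix (Fin n) (Fin n) ℂ} (hg : g.transpose * J * g = J) :
    g.det ^ 2 = 1 := by
  have h := congrArg Matrix.det hg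
  rw [det_mul, det_mul, det_transpose] at h
  have h2 : J.det * g.det ^ 2 = J.det * 1 := by linear_combination h
  exact mul_left_cancel₀ hdet h2

lemma ex_det (hdet : J.det ≠ 0) {X : Matrix (Fin n) (Fin n) ℂ} (hX : X * X * X = 0)
    (hJ : X.transpose * J + J * X = 0) (t : ℂ) : (ex X t).det = 1 := by
  have h := ex_add hX (t / 2) (t / 2)
  rw [add_halves] at h
  rw [← h, det_mul, ← sq]
  exact inv_of_isom hdet (ex_isom hX hJ _)

/-- the monoid generated by the exponentials -/
noncomputable def G (J : Matrix (Fin n) (Fin n) ℂ) : Submonoid (Matrix (Fin n) (Fin n) ℂ) :=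
  Submonoid.closure {u | ∃ X ∈ som J, X * X * X = 0 ∧ ∃ t : ℂ, u = ex X t}

lemma ex_mem {X : Matrix (Fin n) (Fin n) ℂ} (h : X ∈ som J) (hX : X * X * X = 0) (t : ℂ) : ex X t ∈ G J :=
  Submonoid.subset_closure ⟨X, h, hX, t, rfl⟩

lemma G_isom {u : Matrix (Fin n) (Fin n) ℂ} (hu : u ∈ G J) : u.transpose * J * u = J := by
  induction hu using Submonoid.closure_induction with
  | mem u hu =>
    obtain ⟨X, h, hX, t, rfl⟩ := hu
    exact ex_isom hX h t
  | one => rw [transpose_one, one_mul, mul_one]
  | mul a b _ _ ha hb =>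
    calc (a * b).transpose * J * (a * b) = b.transpose * (a.transpose * J * a) * b := by
          rw [transpose_mul]; simp only [Matrix.mul_assoc]
      _ = J := by rw [ha, hb]

lemma G_det (hdet : J.det ≠ 0) {u : Matrix (Fin n) (Fin n) ℂ} (hu : u ∈ G J) : u.det = 1 := by
  induction hu using Submonoid.closure_induction with
  | mem u hu =>
    obtain ⟨X, h, hX, t, rfl⟩ := hu
    exact ex_det hdet hX h t
  | one => exact det_one
  | mul a b _ _ ha hb => rw [det_mul, ha, hb, one_mul]

lemma G_inv {u : Matrix (Fin n) (Fin n) ℂ} (hu : u ∈ G J) : ∃ u' ∈ G J, u * u' = 1 ∧ u' * u = 1 := by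
  induction hu using Submonoid.closure_induction with
  | mem u hu =>
    obtain ⟨X, h, hX, t, rfl⟩ := hu
    refine ⟨ex X (-t), ex_mem h hX _, ?_, ?_⟩
    · rw [ex_add hX, add_neg_cancel, ex_zero]
    · rw [ex_add hX, neg_add_cancel, ex_zero]
  | one => exact ⟨1, (G J).one_mem, one_mul _, one_mul _⟩
  | mul a b _ _ ha hb =>
    obtain ⟨a', ha', h1, h2⟩ := ha
    obtain ⟨b', hb', h3, h4⟩ := hb
    refine ⟨b' * a', (G J).mul_mem hb' ha', ?_, ?_⟩
    · calc a * b * (b' * a') = a * (b * b') * a' := by simp only [Matrix.mul_assoc]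
        _ = 1 := by rw [h3, mul_one, h1]
    · calc b' * a' * (a * b) = b' * (a' * a) * b := by simp only [Matrix.mul_assoc]
        _ = 1 := by rw [h2, mul_one, h4]

/-- the monoid is normalised by the isometries of order two -/
lemma G_conj {r : Matrix (Fin n) (Fin n) ℂ} (hr : r.transpose * J * r = J) (hrr : r * r = 1)
    {u : Matrix (Fin n) (Fin n) ℂ} (hu : u ∈ G J) : r * u * r ∈ G J := by
  have hrJ : r.transpose * J = J * r := by
    calc r.transpose * J = r.transpose * J * (r * r) := by rw [hrr, mul_one]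
      _ = r.transpose * J * r * r := by rw [Matrix.mul_assoc (r.transpose * J)]
      _ = J * r := by rw [hr]
  induction hu using Submonoid.closure_induction with
  | mem u hu =>
    obtain ⟨X, h, hX, t, rfl⟩ := hu
    have e1 : r * ex X t * r = ex (r * X * r) t := by
      unfold ex
      have e2 : r * X * r * (r * X * r) = r * (X * X) * r := by
        calc r * X * r * (r * X * r) = r * X * (r * r) * X * r := by simp only [Matrix.mul_assoc]
          _ = _ := by rw [hrr, mul_one]; simp only [Matrix.mul_assoc]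
      rw [e2, mul_add, mul_add, add_mul, add_mul, mul_one, hrr, mul_smul_comm, smul_mul_assoc, mul_smul_comm,
        smul_mul_assoc]
    rw [e1]
    refine ex_mem ?_ ?_ t
    · rw [mem_som]
      have h' : X.transpose * J + J * X = 0 := h
      have hJr : J * r = r.transpose * J := hrJ.symm
      calc (r * X * r).transpose * J + J * (r * X * r)
          = r.transpose * (X.transpose * (r.transpose * J)) + J * r * (X * r) := by
            rw [transpose_mul, transpose_mul]; simp only [Matrix.mul_assoc]
        _ = r.transpose * (X.transpose * (J * r)) + r.transpose * J * (X * r) := by rw [hrJ, hJr]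
        _ = r.transpose * ((X.transpose * J + J * X) * r) := by
            rw [add_mul, mul_add]; simp only [Matrix.mul_assoc]
        _ = 0 := by rw [h', zero_mul, mul_zero]
    · calc r * X * r * (r * X * r) * (r * X * r) = r * X * (r * r) * X * (r * r) * X * r := by
            simp only [Matrix.mul_assoc]
        _ = r * (X * X * X) * r := by rw [hrr, mul_one, mul_one]; simp only [Matrix.mul_assoc]
        _ = 0 := by rw [hX, mul_zero, zero_mul]
  | one => rw [mul_one, hrr]; exact (G J).one_mem
  | mul a b _ _ ha hb =>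
    have e : r * (a * b) * r = (r * a * r) * (r * b * r) := by
      calc r * (a * b) * r = r * a * 1 * b * r := by rw [mul_one]; simp only [Matrix.mul_assoc]
        _ = _ := by rw [← hrr]; simp only [Matrix.mul_assoc]
    rw [e]
    exact (G J).mul_mem ha hb

/-- if the monoid maps `b` to `a` then it contains the product of the reflections -/
lemma rr_of_map (hJ : J.transpose = J) {a b : Fin n → ℂ} (hb : om J b b ≠ 0) {u : Matrix (Fin n) (Fin n) ℂ}
    (hu : u ∈ G J) (h : u *ᵥ b = a) : rf J a * rf J b ∈ G J := by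
  obtain ⟨u', hu', h1, h2⟩ := G_inv hu
  have e := rf_conj h1 (G_isom hu) b
  rw [h] at e
  rw [← e]
  have e2 : u * rf J b * u' * rf J b = u * (rf J b * u' * rf J b) := by simp only [Matrix.mul_assoc]
  rw [e2]
  exact (G J).mul_mem hu (G_conj (rf_isom hJ hb) (rf_sq hb) hu')

lemma X_mulVec (a b x : Fin n → ℂ) :
    (vecMulVec a (b ᵥ* J) - vecMulVec b (a ᵥ* J)) *ᵥ x = om J b x • a - om J a x • b := by
  rw [sub_mulVec, vecMulVec_mulVec, vecMulVec_mulVec, ← om_eq, ← om_eq]
  ext i
  simp only [Pi.sub_apply, Pi.smul_apply, MulOpposite.smul_eq_mul_unop, MulOpposite.unop_op, smul_eq_mul]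
  ring

lemma X_som (hJ : J.transpose = J) (a b : Fin n → ℂ) : vecMulVec a (b ᵥ* J) - vecMulVec b (a ᵥ* J) ∈ som J := by
  rw [mem_som, transpose_sub, transpose_vecMulVec, transpose_vecMulVec, sub_mul, mul_sub, vecMulVec_mul, vecMulVec_mul,
    mul_vecMulVec, mul_vecMulVec]
  have h : ∀ x, J *ᵥ x = x ᵥ* J := fun x => by rw [← mulVec_transpose, hJ]
  rw [h, h]
  abel

lemma mat_ext {A B : Matrix (Fin n) (Fin n) ℂ} (h : ∀ x, A *ᵥ x = B *ᵥ x) : A = B := by
  apply Matrix.toLin'.injective
  refine LinearMap.ext fun x => ?_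
  rw [toLin'_apply, toLin'_apply, h x]

/-- the case of two vectors with `(a, b) = 1` -/
lemma rr_one (hJ : J.transpose = J) {a b : Fin n → ℂ} (ha : om J a a = 1) (hb : om J b b = 1) (hab : om J a b = 1) :
    rf J a * rf J b ∈ G J := by
  have hba : om J b a = 1 := by rw [om_symm hJ, hab]
  set e : Fin n → ℂ := b - a with he
  have hl : ∀ u v w : Fin n → ℂ, om J (u - v) w = om J u w - om J v w := by
    intro u v w
    rw [sub_eq_add_neg, show -v = (-1 : ℂ) • v by rw [neg_smul, one_smul], om_add_left, om_smul_left]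
    ring
  have hr : ∀ u v w : Fin n → ℂ, om J w (u - v) = om J w u - om J w v := by
    intro u v w
    rw [om_symm hJ, hl, om_symm hJ w u, om_symm hJ w v]
  have hee : om J e e = 0 := by rw [he, hl, hr, hr, ha, hb, hab, hba]; ring
  have heb : om J e b = 0 := by rw [he, hl, hb, hab]; ring
  have hbe : om J b e = 0 := by rw [om_symm hJ, heb]
  set X := vecMulVec b (e ᵥ* J) - vecMulVec e (b ᵥ* J) with hX
  have hXm : ∀ x, X *ᵥ x = om J e x • b - om J b x • e := X_mulVec b e
  have hXe : X *ᵥ e = 0 := by rw [hXm, hee, hbe, zero_smul, zero_smul, sub_zero]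
  have hXb : X *ᵥ b = -e := by rw [hXm, heb, hb, zero_smul, one_smul, zero_sub]
  have hX3 : X * X * X = 0 := by
    refine mat_ext fun x => ?_
    rw [← mulVec_mulVec, ← mulVec_mulVec, hXm x, mulVec_sub, mulVec_smul, mulVec_smul, hXe, hXb, mulVec_sub,
      mulVec_smul, mulVec_smul, mulVec_neg, hXe, mulVec_zero, zero_mulVec, neg_zero, smul_zero, smul_zero, sub_zero]
  have hu : ex X 1 ∈ G J := ex_mem (X_som hJ b e) hX3 1
  refine rr_of_map hJ (by rw [hb]; exact one_ne_zero) hu ?_
  unfold ex
  rw [add_mulVec, add_mulVec, one_mulVec, smul_mulVec, smul_mulVec, ← mulVec_mulVec, hXb, mulVec_neg, hXe, neg_zero,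
    smul_zero, add_zero, one_smul, he]
  abel

lemma exists_pair (hdet : J.det ≠ 0) {b : Fin n → ℂ} (hb : b ≠ 0) : ∃ y, om J b y = 1 := by
  have h : b ᵥ* J ≠ 0 := fun h => hb (Matrix.eq_zero_of_vecMul_eq_zero hdet h)
  obtain ⟨i, hi⟩ : ∃ i, (b ᵥ* J) i ≠ 0 := by
    by_contra hc
    push Not at hc
    exact h (funext hc)
  refine ⟨Pi.single i ((b ᵥ* J) i)⁻¹, ?_⟩
  rw [om_eq, dotProduct_single, mul_inv_cancel₀ hi]

lemma exists_sq (z : ℂ) : ∃ w : ℂ, w ^ 2 = z := by
  obtain ⟨w, hw⟩ := IsAlgClosed.exists_pow_nat_eq z (n := 2) (by norm_num)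
  exact ⟨w, hw⟩

/-- an isotropic vector orthogonal to `a` and not to `b` -/
lemma exists_iso (hn : 3 ≤ n) (hJ : J.transpose = J) (hdet : J.det ≠ 0) {a b : Fin n → ℂ} (ha : om J a a = 1)
    (hb : b ≠ 0) (hab : om J a b = 0) : ∃ e, om J e e = 0 ∧ om J a e = 0 ∧ om J b e ≠ 0 := by
  by_cases hbb : om J b b = 0
  · obtain ⟨y0, hy0⟩ := exists_pair hdet hb
    set y := y0 + (-om J a y0) • a with hy
    have hay : om J a y = 0 := by rw [hy, om_add, om_smul, ha]; ring
    have hba : om J b a = 0 := by rw [om_symm hJ, hab]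
    have hby : om J b y = 1 := by rw [hy, om_add, om_smul, hba, hy0]; ring
    have hyb : om J y b = 1 := by rw [om_symm hJ, hby]
    clear_value y
    refine ⟨y + (-(om J y y / 2)) • b, ?_, ?_, ?_⟩
    · rw [om_add, om_smul, om_add_left, om_add_left, om_smul_left, om_smul_left, hby, hyb, hbb]
      ring
    · rw [om_add, om_smul, hay, hab]; ring
    · rw [om_add, om_smul, hby, hbb, mul_zero, add_zero]
      exact one_ne_zero
  · have hba : om J b a = 0 := by rw [om_symm hJ, hab]
    -- the projection to the orthogonal complement of `a`, `b`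
    obtain ⟨p, hp⟩ : ∃ p : (Fin n → ℂ) → (Fin n → ℂ),
        ∀ z, p z = z + (-om J a z) • a + (-(om J b z / om J b b)) • b := ⟨_, fun z => rfl⟩
    have hap : ∀ z, om J a (p z) = 0 := by
      intro z
      rw [hp, om_add, om_add, om_smul, om_smul, ha, hab]
      ring
    have hbp : ∀ z, om J b (p z) = 0 := by
      intro z
      rw [hp, om_add, om_add, om_smul, om_smul, hba, mul_zero, add_zero, neg_mul, div_mul_cancel₀ _ hbb, add_neg_cancel]
    obtain ⟨c, hc1, hc2, hc3⟩ : ∃ c, om J a c = 0 ∧ om J b c = 0 ∧ om J c c ≠ 0 := by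
      by_contra hc
      push Not at hc
      have h1 : ∀ z, om J (p z) (p z) = 0 := fun z => hc (p z) (hap z) (hbp z)
      have h2 : ∀ z z', om J (p z) (p z') = 0 := by
        intro z z'
        have h3 := hc (p z + p z') (by rw [om_add, hap, hap, add_zero]) (by rw [om_add, hbp, hbp, add_zero])
        rw [om_add, om_add_left, om_add_left, h1, h1, om_symm hJ (p z) (p z')] at h3
        have h4 : (2 : ℂ) * om J (p z) (p z') = 0 := by linear_combination h3
        rcases mul_eq_zero.1 h4 with h5 | h5
        · norm_num at h5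
        · exact h5
      have h3 : ∀ z z', om J (p z) z' = 0 := by
        intro z z'
        have h4 := h2 z z'
        have h5 : om J (p z) (p z') = om J (p z) z' := by
          have e1 : om J (p z) a = 0 := by rw [om_symm hJ, hap]
          have e2 : om J (p z) b = 0 := by rw [om_symm hJ, hbp]
          rw [hp z', om_add, om_add, om_smul, om_smul, e1, e2]
          ring
        rw [← h5, h4]
      have h4 : ∀ z, p z = 0 := by
        intro z
        by_contra h5
        obtain ⟨y, hy⟩ := exists_pair hdet h5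
        rw [h3] at hy
        exact zero_ne_one hy
      have h5 : (⊤ : Submodule ℂ (Fin n → ℂ)) ≤ Submodule.span ℂ {a, b} := by
        intro z _
        have h6 := h4 z
        have h7 : z = om J a z • a + (om J b z / om J b b) • b := by
          have h8 : z + (-om J a z) • a + (-(om J b z / om J b b)) • b = 0 := by rw [← hp]; exact h6
          rw [neg_smul, neg_smul] at h8
          have h9 : z - (om J a z • a + (om J b z / om J b b) • b) = 0 := by
            rw [← h8]; abel
          exact sub_eq_zero.1 h9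
        rw [h7]
        exact Submodule.add_mem _ (Submodule.smul_mem _ _ (Submodule.subset_span (by simp)))
          (Submodule.smul_mem _ _ (Submodule.subset_span (by simp)))
      have h6 : Module.finrank ℂ (Fin n → ℂ) ≤ 2 := by
        have h7 : Module.finrank ℂ (Submodule.span ℂ ({a, b} : Set (Fin n → ℂ))) ≤ 2 := by
          classical
          have h8 := finrank_span_finset_le_card (R := ℂ) ({a, b} : Finset (Fin n → ℂ))
          have h9 : (({a, b} : Finset (Fin n → ℂ)) : Set (Fin n → ℂ)) = {a, b} := by simp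
          rw [h9] at h8
          exact h8.trans (Finset.card_le_two)
        have h8 : Submodule.span ℂ ({a, b} : Set (Fin n → ℂ)) = ⊤ := top_le_iff.1 h5
        rw [h8, finrank_top] at h7
        exact h7
      rw [Module.finrank_fin_fun] at h6
      omega
    obtain ⟨κ, hκ⟩ := exists_sq (-(om J b b) / om J c c)
    have hcb : om J c b = 0 := by rw [om_symm hJ, hc2]
    refine ⟨b + κ • c, ?_, ?_, ?_⟩
    · rw [om_add, om_smul, om_add_left, om_add_left, om_smul_left, om_smul_left, hc2, hcb]
      have h1 : κ ^ 2 * om J c c = -(om J b b) := by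
        rw [hκ]; field_simp
      linear_combination h1
    · rw [om_add, om_smul, hab, hc1]; ring
    · rw [om_add, om_smul, hc2, mul_zero, add_zero]
      exact hbb

/-- products of two reflections -/
lemma rr_mem (hn : 3 ≤ n) (hJ : J.transpose = J) (hdet : J.det ≠ 0) {a b : Fin n → ℂ} (ha : om J a a = 1)
    (hb : om J b b = 1) : rf J a * rf J b ∈ G J := by
  have hane : om J a a ≠ 0 := by rw [ha]; exact one_ne_zero
  by_cases hab : om J a b = 1
  · exact rr_one hJ ha hb hab
  by_cases hb' : b + (-om J a b) • a = 0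
  · -- `b` is a multiple of `a`
    have h1 : b = om J a b • a := by
      rw [neg_smul] at hb'
      exact eq_of_sub_eq_zero (by rw [sub_eq_add_neg]; exact hb')
    have h2 : om J a b ≠ 0 := by
      intro h0
      rw [h0, zero_smul] at h1
      rw [h1, om_zero_left] at hb
      exact zero_ne_one hb
    have h3 : rf J b = rf J a := by
      rw [h1]
      exact rf_smul h2 a
    rw [h3, rf_sq hane]
    exact (G J).one_mem
  · obtain ⟨e, he1, he2, he3⟩ := exists_iso hn hJ hdet ha hb' (by rw [om_add, om_smul, ha]; ring)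
    have he4 : om J b e ≠ 0 := by
      rw [om_add_left, om_smul_left, he2, mul_zero, add_zero] at he3
      exact he3
    set c := (1 - om J a b) / om J b e with hc
    set a' := a + c • e with ha'
    have hea : om J e a = 0 := by rw [om_symm hJ, he2]
    have h1 : om J a a' = 1 := by rw [ha', om_add, om_smul, ha, he2]; ring
    have h2 : om J a' a' = 1 := by
      rw [ha', om_add, om_smul, om_add_left, om_add_left, om_smul_left, om_smul_left, ha, hea, he2, he1]; ring
    have h3 : om J a' b = 1 := by
      rw [ha', om_add_left, om_smul_left, om_symm hJ b e, hc, div_mul_cancel₀ _ he4]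
      ring
    have ha'ne : om J a' a' ≠ 0 := by rw [h2]; exact one_ne_zero
    have h4 := (G J).mul_mem (rr_one hJ ha h2 h1) (rr_one hJ h2 hb h3)
    have h5 : rf J a * rf J a' * (rf J a' * rf J b) = rf J a * rf J b := by
      calc rf J a * rf J a' * (rf J a' * rf J b) = rf J a * (rf J a' * rf J a') * rf J b := by
            simp only [Matrix.mul_assoc]
        _ = _ := by rw [rf_sq ha'ne, mul_one]
    rw [h5] at h4
    exact h4

lemma rf_det {a : Fin n → ℂ} (ha : om J a a = 1) : (rf J a).det = -1 := by
  unfold rf tv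
  rw [ha, vecMulVec_eq Unit, ← Matrix.smul_mul, ← replicateCol_smul, det_one_add_replicateCol_mul_replicateRow,
    dotProduct_smul, ← om_eq, ha]
  simp
  norm_num

/-- scaling -/
lemma scale {x : Fin n → ℂ} (hx : om J x x ≠ 0) : ∃ c : ℂ, c ≠ 0 ∧ om J (c • x) (c • x) = 1 := by
  obtain ⟨c, hc⟩ := exists_sq (om J x x)⁻¹
  have hc0 : c ≠ 0 := by
    rintro rfl
    rw [zero_pow two_ne_zero] at hc
    exact inv_ne_zero hx hc.symm
  refine ⟨c, hc0, ?_⟩
  rw [om_smul, om_smul_left]
  calc c * (c * om J x x) = c ^ 2 * om J x x := by ring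
    _ = 1 := by rw [hc, inv_mul_cancel₀ hx]

/-- an anisotropic vector -/
lemma exists_aniso (hn : 3 ≤ n) (hJ : J.transpose = J) (hdet : J.det ≠ 0) : ∃ a, om J a a = 1 := by
  by_contra hc
  push Not at hc
  have h0 : ∀ x, om J x x = 0 := by
    intro x
    by_contra hx
    obtain ⟨c, _, h⟩ := scale hx
    exact hc _ h
  set b : Fin n → ℂ := Pi.single ⟨0, by omega⟩ 1 with hb
  have hbne : b ≠ 0 := by
    intro h
    have := congrFun h ⟨0, by omega⟩
    rw [hb] at this
    simp at this
  obtain ⟨y, hy⟩ := exists_pair hdet hbne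
  have h1 := h0 (b + y)
  rw [om_add, om_add_left, om_add_left, h0, h0, om_symm hJ b y, hy] at h1
  norm_num at h1

theorem p_SOG : S_SOG := by
  intro n J hn hJ hdet S hS g hg hgd
  have hGS : G J ≤ S := by
    refine Submonoid.closure_le.2 ?_
    rintro u ⟨X, hX, hX3, t, rfl⟩
    exact hS X hX hX3 t
  apply hGS
  obtain ⟨a, ha⟩ := exists_aniso hn hJ hdet
  have hane : om J a a ≠ 0 := by rw [ha]; exact one_ne_zero
  have hrr := rf_sq (J := J) hane
  have hri := rf_isom hJ hane
  let S' : Submonoid (Matrix (Fin n) (Fin n) ℂ) :=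
    { carrier := {u | u ∈ G J ∨ rf J a * u ∈ G J}
      one_mem' := Or.inl (G J).one_mem
      mul_mem' := by
        rintro u w (hu | hu) (hw | hw)
        · exact Or.inl ((G J).mul_mem hu hw)
        · right
          have e : rf J a * (u * w) = (rf J a * u * rf J a) * (rf J a * w) := by
            calc rf J a * (u * w) = rf J a * u * 1 * w := by rw [mul_one]; simp only [Matrix.mul_assoc]
              _ = _ := by rw [← hrr]; simp only [Matrix.mul_assoc]
          rw [e]
          exact (G J).mul_mem (G_conj hri hrr hu) hw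
        · right
          rw [← Matrix.mul_assoc]
          exact (G J).mul_mem hu hw
        · left
          have e : u * w = (rf J a * (rf J a * u) * rf J a) * (rf J a * w) := by
            calc u * w = 1 * u * 1 * w := by rw [one_mul, mul_one]
              _ = _ := by rw [← hrr]; simp only [Matrix.mul_assoc]
          rw [e]
          exact (G J).mul_mem (G_conj hri hrr hu) hw }
  have hg' : g ∈ S' := by
    refine gen_rf hJ hdet S' (fun x hx => ?_) g hg
    obtain ⟨c, hc0, hc⟩ := scale hx
    right
    rw [← rf_smul (J := J) hc0 x]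
    exact rr_mem hn hJ hdet ha hc
  rcases hg' with h | h
  · exact h
  · exfalso
    have h1 := G_det hdet h
    rw [det_mul, rf_det ha, hgd] at h1
    norm_num at h1

end Run7.h803.SOG
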